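import Mathlib
import Pool.Agent.Helper72.FA.Grp

/-!
# Groups whose alternating quotients of degrees in a given set split off
-/

set_option autoImplicit false
set_option linter.unusedSectionVars false
set_option linter.unusedVariables false

namespace Pool.Agent.Helper72.FB

open Pool.Agent.Helper72.FA (alt_simple)

/-- Every quotient `G / C ≃ A_n` with `n` in the set `w`, `n ≥ 5` splits off: `C` and its centralizer
generate `G`. -/
def SplitsOff (w : Set ℕ) (G : Type) [Group G] : Prop :=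
  ∀ (C : Subgroup G) [C.Normal] (n : ℕ), n ∈ w → 5 ≤ n →
    Nonempty ((G ⧸ C) ≃* alternatingGroup (Fin n)) →
    C ⊔ Subgroup.centralizer (C : Set G) = ⊤

/-- The same for the quotient by `V`. -/
def SplitAt (w : Set ℕ) {G : Type} [Group G] (V : Subgroup G) : Prop :=
  ∀ (C : Subgroup G) [C.Normal] (n : ℕ), n ∈ w → 5 ≤ n →
    Nonempty ((G ⧸ C) ≃* alternatingGroup (Fin n)) → V ≤ C →
    ∀ g : G, ∃ t : G, (∀ c ∈ C, t * c * t⁻¹ * c⁻¹ ∈ V) ∧ t⁻¹ * g ∈ C

section

variable {G : Type} [Group G] {w : Set ℕ}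

theorem SplitAt.mono {V V' : Subgroup G} (h : SplitAt w V) (hV : V ≤ V') : SplitAt w V' := by
  intro C _ n hw h5 hn hC g
  obtain ⟨t, h1, h2⟩ := h C n hw h5 hn (hV.trans hC) g
  exact ⟨t, fun c hc => hV (h1 c hc), h2⟩

theorem splitAt_top : SplitAt w (⊤ : Subgroup G) := by
  intro C _ n hw h5 hn hC g
  exact ⟨1, fun c hc => Subgroup.mem_top _, by rw [inv_one, one_mul]; exact hC (Subgroup.mem_top g)⟩

theorem splitAt_ker {G' : Type} [Group G'] (f : G →* G') (hf : Function.Surjective f)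
    (h : SplitsOff w G') : SplitAt w f.ker := by
  intro C _ n hw h5 hn hC g
  have hC' : (C.map f).Normal := Subgroup.Normal.map inferInstance f hf
  let q : G →* G' ⧸ (C.map f) := (QuotientGroup.mk' (C.map f)).comp f
  have hq : Function.Surjective q := (QuotientGroup.mk'_surjective _).comp hf
  have hqk : q.ker = C := by
    ext x
    rw [MonoidHom.mem_ker]
    change (QuotientGroup.mk (f x) : G' ⧸ (C.map f)) = 1 ↔ _
    rw [QuotientGroup.eq_one_iff]
    constructor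
    · rintro ⟨c, hc, hcx⟩
      have h1 : x = c * (c⁻¹ * x) := by group
      rw [h1]
      refine mul_mem hc (hC ?_)
      rw [MonoidHom.mem_ker, map_mul, map_inv, hcx, inv_mul_cancel]
    · intro hx
      exact ⟨x, hx, rfl⟩
  let e : G ⧸ C ≃* G' ⧸ (C.map f) :=
    (QuotientGroup.quotientMulEquivOfEq hqk.symm).trans
      (QuotientGroup.quotientKerEquivOfSurjective q hq)
  have h2 := h (C.map f) n hw h5 (hn.map fun e' => e.symm.trans e')
  have h3 : f g ∈ C.map f ⊔ Subgroup.centralizer ((C.map f : Subgroup G') : Set G') := by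
    rw [h2]; exact Subgroup.mem_top _
  rw [sup_comm, Subgroup.mem_sup_of_normal_right] at h3
  obtain ⟨z, hz, c', ⟨c, hc, rfl⟩, hzc⟩ := h3
  obtain ⟨t, rfl⟩ := hf z
  refine ⟨t, fun x hx => ?_, ?_⟩
  · have h4 := Subgroup.mem_centralizer_iff.1 hz (f x) ⟨x, hx, rfl⟩
    rw [MonoidHom.mem_ker]
    simp only [map_mul, map_inv]
    rw [← h4]
    group
  · have h5 : t⁻¹ * g ∈ q.ker := by
      rw [MonoidHom.mem_ker]
      change (QuotientGroup.mk (f (t⁻¹ * g)) : G' ⧸ (C.map f)) = 1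
      rw [QuotientGroup.eq_one_iff]
      refine ⟨c, hc, ?_⟩
      rw [map_mul, map_inv, ← hzc]
      group
    rwa [hqk] at h5

theorem SplitAt.inf {V₁ V₂ : Subgroup G} [n1 : V₁.Normal] [n2 : V₂.Normal] (h1 : SplitAt w V₁)
    (h2 : SplitAt w V₂) : SplitAt w (V₁ ⊓ V₂) := by
  intro C nC n hw h5 hne hC g
  obtain ⟨hs, hn, -⟩ := alt_simple n h5 hne.some
  -- the elements which commute with `C` modulo `V`
  let D : ∀ V : Subgroup G, V.Normal → Subgroup G := fun V hV =>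
    { carrier := {t | ∀ c ∈ C, t * c * t⁻¹ * c⁻¹ ∈ V}
      one_mem' := fun c hc => by
        have : (1 : G) * c * 1⁻¹ * c⁻¹ = 1 := by group
        rw [this]; exact one_mem _
      mul_mem' := fun {a b} ha hb c hc => by
        have e1 : a * b * c * (a * b)⁻¹ * c⁻¹ =
            (a * (b * c * b⁻¹ * c⁻¹) * a⁻¹) * (a * c * a⁻¹ * c⁻¹) := by group
        rw [e1]
        exact mul_mem (hV.conj_mem _ (hb c hc) a) (ha c hc)
      inv_mem' := fun {a} ha c hc => by
        have e1 : a⁻¹ * c * a⁻¹⁻¹ * c⁻¹ = a⁻¹ * (a * c * a⁻¹ * c⁻¹)⁻¹ * a⁻¹⁻¹ := by group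
        rw [e1]
        exact hV.conj_mem _ (inv_mem (ha c hc)) a⁻¹ }
  have hDn : ∀ V (hV : V.Normal), (D V hV).Normal := fun V hV => ⟨fun t ht g c hc => by
    have e1 : g * t * g⁻¹ * c * (g * t * g⁻¹)⁻¹ * c⁻¹ =
        g * (t * (g⁻¹ * c * g⁻¹⁻¹) * t⁻¹ * (g⁻¹ * c * g⁻¹⁻¹)⁻¹) * g⁻¹ := by group
    rw [e1]
    exact hV.conj_mem _ (ht _ (nC.conj_mem _ hc g⁻¹)) g⟩
  have hmax : ∀ U : Subgroup G, U.Normal → ¬ U ≤ C → U ⊔ C = ⊤ := by
    intro U hU hUC
    have h3 : (U.map (QuotientGroup.mk' C)).Normal :=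
      Subgroup.Normal.map hU _ (QuotientGroup.mk'_surjective C)
    rcases hs.eq_bot_or_eq_top_of_normal _ h3 with h4 | h4
    · exfalso
      apply hUC
      intro u hu
      have h5 : QuotientGroup.mk' C u ∈ U.map (QuotientGroup.mk' C) := ⟨u, hu, rfl⟩
      rw [h4, Subgroup.mem_bot] at h5
      exact (QuotientGroup.eq_one_iff u).1 h5
    · rw [eq_top_iff]
      intro x _
      have h5 : QuotientGroup.mk' C x ∈ U.map (QuotientGroup.mk' C) := by
        rw [h4]; exact Subgroup.mem_top _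
      obtain ⟨u, hu, hux⟩ := h5
      have h6 : u⁻¹ * x ∈ C := QuotientGroup.eq.1 hux
      have h7 : x = u * (u⁻¹ * x) := by group
      rw [h7]
      exact mul_mem (Subgroup.mem_sup_left hu) (Subgroup.mem_sup_right h6)
  have hD : ∀ V (hV : V.Normal), SplitAt w V → D V hV ⊔ C = ⊤ := by
    intro V hV hSV
    by_cases hVC : V ≤ C
    · rw [eq_top_iff]
      intro x _
      obtain ⟨t, ht1, ht2⟩ := hSV C n hw h5 hne hVC x
      have h7 : x = t * (t⁻¹ * x) := by group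
      rw [h7]
      exact mul_mem (Subgroup.mem_sup_left ht1) (Subgroup.mem_sup_right ht2)
    · refine hmax _ (hDn V hV) fun h3 => hVC (le_trans ?_ h3)
      intro v hv c hc
      have e1 : v * c * v⁻¹ * c⁻¹ = v * (c * v⁻¹ * c⁻¹) := by group
      rw [e1]
      exact mul_mem hv (hV.conj_mem _ (inv_mem hv) c)
  have hD1 := hD V₁ n1 h1
  have hD2 := hD V₂ n2 h2
  have hDD : (D V₁ n1 ⊓ D V₂ n2) ⊔ C = ⊤ := by
    have hnn := hDn V₁ n1
    have hnn2 := hDn V₂ n2
    refine hmax _ inferInstance fun h3 => ?_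
    obtain ⟨a, b, hab⟩ := hn
    obtain ⟨a, rfl⟩ := QuotientGroup.mk_surjective a
    obtain ⟨b, rfl⟩ := QuotientGroup.mk_surjective b
    have ha : a ∈ D V₁ n1 ⊔ C := by rw [hD1]; exact Subgroup.mem_top _
    have hb : b ∈ D V₂ n2 ⊔ C := by rw [hD2]; exact Subgroup.mem_top _
    obtain ⟨t, ht, c, hc, rfl⟩ := Subgroup.mem_sup_of_normal_right.1 ha
    obtain ⟨u, hu, d, hd, rfl⟩ := Subgroup.mem_sup_of_normal_right.1 hb
    apply hab
    have e1 : (QuotientGroup.mk (t * c) : G ⧸ C) = QuotientGroup.mk t :=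
      (QuotientGroup.eq.2 (by rw [inv_mul_cancel_left]; exact hc)).symm
    have e2 : (QuotientGroup.mk (u * d) : G ⧸ C) = QuotientGroup.mk u :=
      (QuotientGroup.eq.2 (by rw [inv_mul_cancel_left]; exact hd)).symm
    rw [e1, e2]
    change (QuotientGroup.mk (t * u) : G ⧸ C) = QuotientGroup.mk (u * t)
    refine QuotientGroup.eq.2 ?_
    have e3 : (t * u)⁻¹ * (u * t) = (u⁻¹ * (t⁻¹ * u * t⁻¹⁻¹)) := by group
    rw [e3]
    apply h3
    refine ⟨?_, (D V₂ n2).mul_mem ((D V₂ n2).inv_mem hu) (hnn2.conj_mem _ hu _)⟩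
    have e4 : (u⁻¹ * (t⁻¹ * u * t⁻¹⁻¹)) = (u⁻¹ * t⁻¹ * u⁻¹⁻¹) * t := by group
    rw [e4]
    exact (D V₁ n1).mul_mem (hnn.conj_mem _ ((D V₁ n1).inv_mem ht) _) ht
  have hg : g ∈ (D V₁ n1 ⊓ D V₂ n2) ⊔ C := by rw [hDD]; exact Subgroup.mem_top _
  obtain ⟨t, ht, c, hc, rfl⟩ := Subgroup.mem_sup_of_normal_right.1 hg
  exact ⟨t, fun x hx => ⟨ht.1 x hx, ht.2 x hx⟩, by rw [inv_mul_cancel_left]; exact hc⟩

theorem SplitAt.iInf {ι : Type} (s : Finset ι) (V : ι → Subgroup G)
    (hn : ∀ i ∈ s, (V i).Normal) (h : ∀ i ∈ s, SplitAt w (V i)) :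
    (⨅ i ∈ s, V i).Normal ∧ SplitAt w (⨅ i ∈ s, V i) := by
  classical
  induction s using Finset.induction_on with
  | empty =>
    simp only [Finset.notMem_empty, iInf_false, iInf_top]
    exact ⟨inferInstance, splitAt_top⟩
  | insert a s ha ih =>
    rw [Finset.iInf_insert]
    obtain ⟨h1, h2⟩ := ih (fun i hi => hn i (Finset.mem_insert_of_mem hi))
      (fun i hi => h i (Finset.mem_insert_of_mem hi))
    have h3 := hn a (Finset.mem_insert_self a s)
    exact ⟨inferInstance, SplitAt.inf (h a (Finset.mem_insert_self a s)) h2⟩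

/-- Simple groups. -/
theorem splitsOff_simple [hG : IsSimpleGroup G] : SplitsOff w G := by
  intro C hC _ _ _ _
  rcases hG.eq_bot_or_eq_top_of_normal C hC with h | h
  · rw [h, bot_sup_eq, eq_top_iff]
    intro g _
    rw [Subgroup.mem_centralizer_iff]
    intro x hx
    rw [Subgroup.coe_bot, Set.mem_singleton_iff] at hx
    rw [hx, one_mul, mul_one]
  · rw [h, top_sup_eq]

end

end Pool.Agent.Helper72.FB
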