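import Mathlib
import Pool.Agent.Helper72.FA.Gal
import Pool.Agent.Helper72.FB.Grp

/-!
# Embedding problems over fields which contain sufficiently many alternating extensions
-/

set_option autoImplicit false
set_option linter.unusedSectionVars false
set_option linter.unusedVariables false

namespace Pool.Agent.Helper72.FB

open Pool.Agent.H391R2 Pool.Agent.H391R2.T4 Pool.Agent.Y793
open Pool.Agent.Helper72.FA (fixing_sSup even_mem_range comm_left induce alt_simple)

section

variable {K : Type} [Field K] [CharZero K]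

/-- The compositum of all finite Galois extensions of `K` (in its algebraic closure) whose groups
have the property that all quotients `A_n` with `n` in the set `T` split off. -/
noncomputable def SplitField (K : Type) [Field K] (T : Set ℕ) :
    IntermediateField K (AlgebraicClosure K) :=
  sSup {E | FiniteDimensional K E ∧ IsGalois K E ∧ SplitsOff T (E ≃ₐ[K] E)}

/-- For every finite embedding problem over `K` some alternating fibre power of it, of a degree in
`T`, has a solution whose alternating quotient is trivial on the group of `N`. -/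
def Adequate (N : IntermediateField K (AlgebraicClosure K)) (T : Set ℕ) : Prop :=
  ∀ (L : IntermediateField K (AlgebraicClosure K)) [FiniteDimensional K L] [IsGalois K L]
    (B : Type) [Group B] [Finite B] (α : B →* (L ≃ₐ[K] L)), Function.Surjective α →
    ∃ n : ℕ, n ∈ T ∧ 5 ≤ n ∧
      ∃ w : (AlgebraicClosure K ≃ₐ[K] AlgebraicClosure K) →* AltEP α n,
        Function.Surjective w ∧
        IsOpen (w.ker : Set (AlgebraicClosure K ≃ₐ[K] AlgebraicClosure K)) ∧
        (∀ σ, (w σ).1.2 = AlgEquiv.restrictNormalHom L σ) ∧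
        ∀ σ ∈ N.fixingSubgroup, (w σ).1.1.right = 1

/-- An open subgroup which contains the group of a subfield of `SplitField K`. -/
theorem splitAt_of_le (w : Set ℕ) (N : IntermediateField K (AlgebraicClosure K))
    (hN : N ≤ SplitField K w)
    (V : Subgroup (AlgebraicClosure K ≃ₐ[K] AlgebraicClosure K))
    (hV : IsOpen (V : Set (AlgebraicClosure K ≃ₐ[K] AlgebraicClosure K)))
    (hNV : N.fixingSubgroup ≤ V) : SplitAt w V := by
  classical
  set S : Set (IntermediateField K (AlgebraicClosure K)) :=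
    {E | FiniteDimensional K E ∧ IsGalois K E ∧ SplitsOff w (E ≃ₐ[K] E)} with hS
  have hcomp : IsCompact ((V : Set (AlgebraicClosure K ≃ₐ[K] AlgebraicClosure K))ᶜ) :=
    (hV.isClosed_compl).isCompact
  obtain ⟨s, hs⟩ := hcomp.elim_finite_subcover
    (fun E : S => ((E.1.fixingSubgroup :
      Set (AlgebraicClosure K ≃ₐ[K] AlgebraicClosure K))ᶜ))
    (fun E => (InfiniteGalois.fixingSubgroup_isClosed E.1).isOpen_compl) (by
      intro σ hσ
      by_contra hcon
      apply hσ
      apply hNV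
      have h1 : σ ∈ (sSup S).fixingSubgroup := by
        refine fixing_sSup S σ fun E hE => ?_
        by_contra h2
        exact hcon (Set.mem_iUnion.2 ⟨⟨E, hE⟩, h2⟩)
      exact IntermediateField.fixingSubgroup_le hN h1)
  have key := SplitAt.iInf (G := AlgebraicClosure K ≃ₐ[K] AlgebraicClosure K) s
    (fun E : S => E.1.fixingSubgroup) (fun E _ => by
      have h1 : IsGalois K E.1 := E.2.2.1
      rw [← IntermediateField.restrictNormalHom_ker]
      infer_instance) (fun E _ => by
      have h1 : IsGalois K E.1 := E.2.2.1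
      rw [← IntermediateField.restrictNormalHom_ker]
      exact splitAt_ker _ (AlgEquiv.restrictNormalHom_surjective _) E.2.2.2)
  refine key.2.mono fun σ hσ => ?_
  by_contra h1
  obtain ⟨E, hE, h2⟩ := Set.mem_iUnion₂.1 (hs h1)
  apply h2
  rw [Subgroup.mem_iInf] at hσ
  have h3 := hσ E
  rw [Subgroup.mem_iInf] at h3
  exact h3 hE


theorem solve (N : IntermediateField K (AlgebraicClosure K))
    (T : Set ℕ) (hlow : Adequate N T) (hup : N ≤ SplitField K T)
    (L : IntermediateField K (AlgebraicClosure K)) [FiniteDimensional K L] [IsGalois K L]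
    (A B : Type) [Group A] [Group B] [Finite B]
    (φ : (N.fixingSubgroup.map (AlgEquiv.restrictNormalHom (K₁ := AlgebraicClosure K) L)) →* A)
    (α : B →* A) (hφ : Function.Surjective φ) (hα : Function.Surjective α) :
    ∃ ψ : N.fixingSubgroup →* B, Function.Surjective ψ ∧
      (∃ V : Subgroup (AlgebraicClosure K ≃ₐ[K] AlgebraicClosure K),
        IsOpen (V : Set (AlgebraicClosure K ≃ₐ[K] AlgebraicClosure K)) ∧
        ∀ σ : N.fixingSubgroup, σ.1 ∈ V → ψ σ = 1) ∧
      ∀ σ : N.fixingSubgroup, α (ψ σ) =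
        φ ⟨AlgEquiv.restrictNormalHom L σ.1, Subgroup.mem_map_of_mem _ σ.2⟩ := by
  classical
  obtain ⟨E, iE1, iE2, β, hβ, θ, hθ, hθk⟩ := induce (L ≃ₐ[K] L) A B _ φ α hα
  obtain ⟨n, hw₀, h5, w, hw, hwo, hwL, hNπ'⟩ := hlow L E β hβ
  -- the homomorphism to the permutations
  let π : (AlgebraicClosure K ≃ₐ[K] AlgebraicClosure K) →* Equiv.Perm (Fin n) :=
    (SemidirectProduct.rightHom.comp ((MonoidHom.fst (Wr E n) (L ≃ₐ[K] L)).comp
      (AltEP β n).subtype)).comp w
  have hπ : ∀ σ, π σ = (w σ).1.1.right := fun σ => rfl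
  have hπsign : ∀ σ, Equiv.Perm.sign (π σ) = 1 := fun σ => (w σ).2.2
  have hπrange : π.range = alternatingGroup (Fin n) := by
    ext p
    rw [Equiv.Perm.mem_alternatingGroup]
    constructor
    · rintro ⟨σ, rfl⟩
      exact hπsign σ
    · intro hp
      obtain ⟨z, hz, -⟩ := even_mem_range β n p hp
      obtain ⟨σ, hσ⟩ := hw z
      exact ⟨σ, by rw [hπ, hσ, hz]⟩
  have hπo : IsOpen (π.ker : Set (AlgebraicClosure K ≃ₐ[K] AlgebraicClosure K)) := by
    refine Subgroup.isOpen_mono (H₁ := w.ker) ?_ hwo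
    intro σ hσ
    rw [MonoidHom.mem_ker, hπ, MonoidHom.mem_ker.1 hσ]
    rfl
  let i₀ : Fin n := ⟨0, by omega⟩
  have hβw : ∀ σ i, β ((w σ).1.1.left i) = AlgEquiv.restrictNormalHom L σ := by
    intro σ i
    rw [← hwL]
    exact (w σ).2.1 i
  -- the solution
  let ψ : N.fixingSubgroup →* B :=
    { toFun := fun σ => θ ⟨(w σ.1).1.1.left i₀, by
        rw [Subgroup.mem_comap, hβw]
        exact Subgroup.mem_map_of_mem _ σ.2⟩
      map_one' := by
        rw [← map_one θ]
        congr 1
        apply Subtype.ext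
        change (w 1).1.1.left i₀ = 1
        rw [map_one]
        rfl
      map_mul' := fun σ τ => by
        rw [← map_mul θ]
        congr 1
        apply Subtype.ext
        change (w (σ.1 * τ.1)).1.1.left i₀ = (w σ.1).1.1.left i₀ * (w τ.1).1.1.left i₀
        rw [map_mul]
        change ((w σ.1).1.1 * (w τ.1).1.1).left i₀ = _
        rw [wr_mul_left, hNπ' σ.1 σ.2]
        rfl }
  have hψθ : ∀ (σ : N.fixingSubgroup) (z : Subgroup.comap β (N.fixingSubgroup.map
      (AlgEquiv.restrictNormalHom (K₁ := AlgebraicClosure K) L))),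
      (w σ.1).1.1.left i₀ = z.1 → ψ σ = θ z := by
    intro σ z hz
    change θ _ = θ z
    congr 1
    exact Subtype.ext hz
  have hψα : ∀ σ : N.fixingSubgroup, α (ψ σ) =
      φ ⟨AlgEquiv.restrictNormalHom L σ.1, Subgroup.mem_map_of_mem _ σ.2⟩ := by
    intro σ
    change α (θ _) = _
    rw [hθ]
    congr 1
    apply Subtype.ext
    exact hβw σ.1 i₀
  refine ⟨ψ, ?_, ⟨w.ker, hwo, fun σ hσ => ?_⟩, hψα⟩
  swap
  · have h1 : ψ σ = θ 1 := hψθ σ 1 (by rw [MonoidHom.mem_ker.1 hσ]; rfl)
    rw [h1, map_one]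
  -- the kernel of `α` is in the range
  have hker : ∀ b ∈ α.ker, ∃ σ, ψ σ = b := by
    intro b hb
    let V : Subgroup (AlgebraicClosure K ≃ₐ[K] AlgebraicClosure K) :=
      (N.fixingSubgroup.map w).comap w
    have hVo : IsOpen (V : Set (AlgebraicClosure K ≃ₐ[K] AlgebraicClosure K)) := by
      refine Subgroup.isOpen_mono (H₁ := w.ker) ?_ hwo
      intro σ hσ
      rw [Subgroup.mem_comap, MonoidHom.mem_ker.1 hσ]
      exact one_mem _
    have hVS : SplitAt T V := splitAt_of_le T N hup V hVo (fun σ hσ => Subgroup.mem_map_of_mem _ hσ)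
    have hVπ : V ≤ π.ker := by
      rintro σ ⟨τ, hτ, hτσ⟩
      rw [MonoidHom.mem_ker, hπ, ← hτσ]
      exact hNπ' τ hτ
    -- the simple quotient
    let e : ((AlgebraicClosure K ≃ₐ[K] AlgebraicClosure K) ⧸ π.ker) ≃*
        alternatingGroup (Fin n) :=
      (QuotientGroup.quotientKerEquivRange π).trans (MulEquiv.subgroupCongr hπrange)
    -- a three-cycle moving the first coordinate
    obtain ⟨p, hp, hp0⟩ : ∃ p : Equiv.Perm (Fin n), Equiv.Perm.sign p = 1 ∧ p i₀ ≠ i₀ := by
      let a : Fin n := ⟨1, by omega⟩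
      let b : Fin n := ⟨2, by omega⟩
      refine ⟨Equiv.swap i₀ a * Equiv.swap a b, ?_, ?_⟩
      · rw [map_mul, Equiv.Perm.sign_swap (by simp [i₀, a, Fin.ext_iff]),
          Equiv.Perm.sign_swap (by simp [a, b, Fin.ext_iff])]
        rfl
      · rw [Equiv.Perm.mul_apply, Equiv.swap_apply_of_ne_of_ne (a := a) (b := b) (x := i₀)
          (by simp [i₀, a, Fin.ext_iff]) (by simp [i₀, b, Fin.ext_iff]), Equiv.swap_apply_left]
        simp [i₀, a, Fin.ext_iff]
    obtain ⟨z₀, hz₀, -⟩ := even_mem_range β n p hp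
    obtain ⟨g, hg⟩ := hw z₀
    obtain ⟨t, ht1, ht2⟩ := hVS π.ker n hw₀ h5 ⟨e⟩ hVπ g
    have htp : π t = p := by
      rw [MonoidHom.mem_ker, map_mul, map_inv, inv_mul_eq_one] at ht2
      rw [ht2, hπ, hg, hz₀]
    obtain ⟨z, hz1, hz2⟩ := hθk b⁻¹ (inv_mem hb)
    -- the element of the kernel with one nontrivial coordinate
    let u : AltEP β n := ⟨(⟨Function.update 1 i₀ z.1, 1⟩, 1), by
      refine ⟨fun i => ?_, show Equiv.Perm.sign (1 : Equiv.Perm (Fin n)) = 1 from map_one _⟩
      change β (Function.update (1 : Fin n → E) i₀ z.1 i) = 1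
      by_cases h : i = i₀
      · rw [h, Function.update_self]
        exact hz1
      · rw [Function.update_of_ne h, Pi.one_apply, map_one]⟩
    obtain ⟨x, hx⟩ := hw u
    have hxπ : x ∈ π.ker := by
      rw [MonoidHom.mem_ker, hπ, hx]
    obtain ⟨σ, hσ, hσx⟩ := ht1 x hxπ
    refine ⟨⟨σ, hσ⟩, ?_⟩
    have hσ0 : (w σ).1.1.left i₀ = z.1⁻¹ := by
      rw [hσx]
      rw [map_mul, map_mul, map_mul, map_inv, map_inv, hx]
      have hpi : p⁻¹ i₀ ≠ i₀ := fun h => hp0 (by
        conv_lhs => rw [← h]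
        exact p.apply_symm_apply i₀)
      have hwt : (w t).1.1.right = p := htp
      have hu2 : u.1.1.left i₀ = z.1 := Function.update_self (f := (1 : Fin n → E)) i₀ z.1
      have hu3 : u.1.1.left (p⁻¹ i₀) = 1 :=
        Function.update_of_ne (f := (1 : Fin n → E)) hpi z.1
      have h9 := comm_left (w t).1.1 u.1.1 rfl i₀ (by rw [hwt]; exact hu3)
      rw [hu2] at h9
      exact h9
    rw [hψθ ⟨σ, hσ⟩ z⁻¹ hσ0, map_inv, hz2, inv_inv]
  intro b
  obtain ⟨r, hr⟩ := hφ (α b)
  obtain ⟨⟨_, ⟨σ, hσ, rfl⟩⟩, rfl⟩ : ∃ r' : (N.fixingSubgroup.map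
      (AlgEquiv.restrictNormalHom (K₁ := AlgebraicClosure K) L)), r' = r := ⟨r, rfl⟩
  obtain ⟨τ, hτ⟩ := hker ((ψ ⟨σ, hσ⟩)⁻¹ * b) (by
    rw [MonoidHom.mem_ker, map_mul, map_inv, hψα, ← hr, inv_mul_eq_one])
  exact ⟨⟨σ, hσ⟩ * τ, by rw [map_mul, hτ, mul_inv_cancel_left]⟩

end

end Pool.Agent.Helper72.FB
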