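import Mathlib
import Pool.Agent.Helper72.FA.Abs
import Pool.Agent.Helper72.FB.Gal

/-!
# Transfer to the absolute Galois group of `N`
-/

set_option autoImplicit false
set_option linter.unusedSectionVars false
set_option linter.unusedVariables false

namespace Pool.Agent.Helper72.FB

open Pool.Agent.H391R2 Pool.Agent.H391R2.T4 Pool.Agent.Y793
open Filter Topology
open Pool.Agent.Helper72.FA (fix_of_basis EP FreeOmega countable_basis freeOmega_of_EP)

section

variable {K : Type} [Field K] [CharZero K]

theorem EP_gal (N : IntermediateField K (AlgebraicClosure K))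
    (T : Set ℕ) (hlow : Adequate N T) (hup : N ≤ SplitField K T) :
    EP (AlgebraicClosure K ≃ₐ[N] AlgebraicClosure K) := by
  classical
  intro A B _ _ _ φ α hφ hφo hα
  -- a finite Galois extension of `K`
  obtain ⟨L, hL1, hL2, hLφ⟩ : ∃ L : IntermediateField K (AlgebraicClosure K),
      FiniteDimensional K L ∧ IsGalois K L ∧
      ∀ σ : AlgebraicClosure K ≃ₐ[N] AlgebraicClosure K, (∀ x ∈ L, σ x = x) → φ σ = 1 := by
    obtain ⟨E, hE, hEφ⟩ := (krullTopology_mem_nhds_one_iff N (AlgebraicClosure K) _).1
      (hφo.mem_nhds (one_mem φ.ker))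
    let S : Set (AlgebraicClosure K) := Set.range fun i => (Module.finBasis N E i : AlgebraicClosure K)
    have hSf : Finite S := Set.finite_range _
    let F : IntermediateField K (AlgebraicClosure K) := IntermediateField.adjoin K S
    have hF : FiniteDimensional K F := IntermediateField.finiteDimensional_adjoin
      fun x _ => (AlgebraicClosure.isAlgebraic K).isAlgebraic x |>.isIntegral
    let L : IntermediateField K (AlgebraicClosure K) :=
      IntermediateField.normalClosure K F (AlgebraicClosure K)
    refine ⟨L, normalClosure.is_finiteDimensional K F _, IsGalois.normalClosure K F _,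
      fun σ hσ => ?_⟩
    refine hEφ ?_
    refine fix_of_basis E σ fun i => hσ _ ?_
    refine F.le_normalClosure ?_
    exact IntermediateField.subset_adjoin _ _ ⟨i, rfl⟩
  let e := IntermediateField.fixingSubgroupEquiv N
  have he : ∀ (σ : N.fixingSubgroup) x, e σ x = σ.1 x := fun σ x => rfl
  let res : N.fixingSubgroup →* (N.fixingSubgroup.map
      (AlgEquiv.restrictNormalHom (K₁ := AlgebraicClosure K) L)) :=
    (AlgEquiv.restrictNormalHom (K₁ := AlgebraicClosure K) L).subgroupMap N.fixingSubgroup
  have hres : Function.Surjective res := MonoidHom.subgroupMap_surjective _ _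
  have hker : res.ker ≤ (φ.comp e.toMonoidHom).ker := by
    intro σ hσ
    have h1 : AlgEquiv.restrictNormalHom L σ.1 = 1 := congrArg Subtype.val (MonoidHom.mem_ker.1 hσ)
    rw [MonoidHom.mem_ker]
    refine hLφ _ fun x hx => ?_
    have h2 : algebraMap L (AlgebraicClosure K) (AlgEquiv.restrictNormalHom L σ.1 ⟨x, hx⟩) =
        σ.1 (algebraMap L (AlgebraicClosure K) ⟨x, hx⟩) :=
      AlgEquiv.restrictNormal_commutes σ.1 L ⟨x, hx⟩
    rw [h1] at h2
    exact h2.symm
  let φ₁ : (N.fixingSubgroup.map
      (AlgEquiv.restrictNormalHom (K₁ := AlgebraicClosure K) L)) →* A :=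
    res.liftOfSurjective hres ⟨φ.comp e.toMonoidHom, hker⟩
  have hφ₁ : ∀ σ, φ₁ (res σ) = φ (e σ) := fun σ =>
    MonoidHom.liftOfRightInverse_comp_apply res _ _ _ σ
  have hφ₁s : Function.Surjective φ₁ := by
    intro a
    obtain ⟨σ, hσ⟩ := hφ a
    exact ⟨res (e.symm σ), by rw [hφ₁, MulEquiv.apply_symm_apply, hσ]⟩
  obtain ⟨ψ, hψ, ⟨V, hVo, hV⟩, hψα⟩ := solve N T hlow hup L A B φ₁ α hφ₁s hα
  refine ⟨ψ.comp e.symm.toMonoidHom, hψ.comp e.symm.surjective, ?_, ?_⟩
  · obtain ⟨E, hE, hEV⟩ := (krullTopology_mem_nhds_one_iff K (AlgebraicClosure K) _).1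
      (hVo.mem_nhds (one_mem V))
    let S : Set (AlgebraicClosure K) := Set.range fun i => (Module.finBasis K E i : AlgebraicClosure K)
    have hSf : Finite S := Set.finite_range _
    let F : IntermediateField N (AlgebraicClosure K) := IntermediateField.adjoin N S
    have hF : FiniteDimensional N F := IntermediateField.finiteDimensional_adjoin
      fun x _ => (((AlgebraicClosure.isAlgebraic K).isAlgebraic x).isIntegral).tower_top
    refine Subgroup.isOpen_mono (H₁ := F.fixingSubgroup) ?_
      (IntermediateField.fixingSubgroup_isOpen F)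
    intro σ hσ
    rw [IntermediateField.mem_fixingSubgroup_iff] at hσ
    rw [MonoidHom.mem_ker]
    refine hV (e.symm σ) (hEV ?_)
    refine fix_of_basis E _ fun i => ?_
    have h1 : (e.symm σ).1 (Module.finBasis K E i : AlgebraicClosure K) =
        σ (Module.finBasis K E i : AlgebraicClosure K) := rfl
    rw [h1]
    exact hσ _ (IntermediateField.subset_adjoin _ _ ⟨i, rfl⟩)
  · ext σ
    have h1 := hψα (e.symm σ)
    have h2 : (⟨AlgEquiv.restrictNormalHom L (e.symm σ).1,
        Subgroup.mem_map_of_mem _ (e.symm σ).2⟩ : (N.fixingSubgroup.map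
      (AlgEquiv.restrictNormalHom (K₁ := AlgebraicClosure K) L))) = res (e.symm σ) := rfl
    rw [h2, hφ₁, MulEquiv.apply_symm_apply] at h1
    exact h1

/-- The main theorem. -/
theorem free_gal [Countable K] (N : IntermediateField K (AlgebraicClosure K))
    (T : Set ℕ) (hlow : Adequate N T) (hup : N ≤ SplitField K T) :
    FreeOmega (AlgebraicClosure K ≃ₐ[N] AlgebraicClosure K) := by
  obtain ⟨U, h1, h2, h3⟩ := countable_basis N
  exact freeOmega_of_EP (EP_gal N T hlow hup) U h1 h2 h3

end

end Pool.Agent.Helper72.FB
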