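import Mathlib
import Pool.Agent.Helper72.FA.Prod

/-!
# The Boolean lattice of the composita of a family of linearly disjoint extensions with nonabelian
simple groups
-/

set_option autoImplicit false
set_option linter.unusedSectionVars false
set_option linter.unusedVariables false

namespace Pool.Agent.Helper72.FB

open scoped commutatorElement
open Pool.Agent.Helper72.FA (MaxN perfect_iInf max_eq maxN_ker exists_finset fixing_sSup alt_simple)

section grp

variable {G : Type} [Group G]

theorem le_of_inf_le (P U M : Subgroup G) [hP : P.Normal] [hU : U.Normal] [hM : M.Normal]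
    (h : P ⊓ M ≤ U) (h1 : P ⊔ M = ⊤) (h2 : U ⊔ M = ⊤) (h3 : M ⊔ commutator G = ⊤) : P ≤ U := by
  have hD : commutator G ≤ (P ⊓ U) ⊔ M := by
    rw [commutator_def, Subgroup.commutator_le]
    intro g _ k _
    have hg : g ∈ P ⊔ M := by rw [h1]; trivial
    have hk : k ∈ U ⊔ M := by rw [h2]; trivial
    obtain ⟨v, hv, w, hw, rfl⟩ := Subgroup.mem_sup_of_normal_right.1 hg
    obtain ⟨v', hv', w', hw', rfl⟩ := Subgroup.mem_sup_of_normal_right.1 hk
    have h4 : (QuotientGroup.mk (⁅v * w, v' * w'⁆) : G ⧸ M) = QuotientGroup.mk ⁅v, v'⁆ := by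
      have e1 : (QuotientGroup.mk (v * w) : G ⧸ M) = QuotientGroup.mk v :=
        (QuotientGroup.eq.2 (by rw [inv_mul_cancel_left]; exact hw)).symm
      have e2 : (QuotientGroup.mk (v' * w') : G ⧸ M) = QuotientGroup.mk v' :=
        (QuotientGroup.eq.2 (by rw [inv_mul_cancel_left]; exact hw')).symm
      change ⁅(QuotientGroup.mk (v * w) : G ⧸ M), (QuotientGroup.mk (v' * w') : G ⧸ M)⁆ =
        ⁅(QuotientGroup.mk v : G ⧸ M), (QuotientGroup.mk v' : G ⧸ M)⁆
      rw [e1, e2]
    have h5 : ⁅v, v'⁆⁻¹ * ⁅v * w, v' * w'⁆ ∈ M := QuotientGroup.eq.1 h4.symm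
    have h6 : ⁅v * w, v' * w'⁆ = ⁅v, v'⁆ * (⁅v, v'⁆⁻¹ * ⁅v * w, v' * w'⁆) := by group
    rw [h6]
    refine mul_mem (Subgroup.mem_sup_left ⟨?_, ?_⟩) (Subgroup.mem_sup_right h5)
    · rw [commutatorElement_def]
      have e3 : v * v' * v⁻¹ * v'⁻¹ = v * (v' * v⁻¹ * v'⁻¹) := by group
      rw [e3]
      exact P.mul_mem hv (hP.conj_mem _ (P.inv_mem hv) v')
    · rw [commutatorElement_def]
      exact U.mul_mem (hU.conj_mem _ hv' v) (U.inv_mem hv')
  have hT : (P ⊓ U) ⊔ M = ⊤ := by
    rw [eq_top_iff, ← h3]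
    exact sup_le le_sup_right hD
  intro p hp
  have h7 : p ∈ (P ⊓ U) ⊔ M := by rw [hT]; trivial
  obtain ⟨d, hd, m, hm, rfl⟩ := Subgroup.mem_sup_of_normal_right.1 h7
  refine U.mul_mem hd.2 (h ⟨?_, hm⟩)
  have h8 := P.mul_mem (P.inv_mem hd.1) hp
  rwa [inv_mul_cancel_left] at h8

/-- A normal subgroup which contains a finite intersection of maximal normal subgroups with
nonabelian quotients is the intersection of some of them. -/
theorem exists_subset {ι : Type} (V : ι → Subgroup G)
    (hm : ∀ i, MaxN (V i)) (hp : ∀ i, V i ⊔ commutator G = ⊤) (U : Subgroup G) (hU : U.Normal)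
    (s : Finset ι) (h : ⨅ i ∈ s, V i ≤ U) :
    ∃ t : Finset ι, (⨅ i ∈ t, V i ≤ U) ∧ ∀ i ∈ t, U ≤ V i := by
  classical
  have hex : ∃ m : ℕ, ∃ t : Finset ι, (⨅ i ∈ t, V i ≤ U) ∧ t.card = m := ⟨_, s, h, rfl⟩
  obtain ⟨t, ht, htc⟩ := Nat.find_spec hex
  refine ⟨t, ht, fun a ha => ?_⟩
  by_contra hna
  obtain ⟨hPn, -⟩ := perfect_iInf (t.erase a) V (fun i _ => hm i) (fun i _ => hp i)
  have hMn : (V a).Normal := (hm a).1
  have hPU : ¬ (⨅ i ∈ t.erase a, V i ≤ U) := by
    intro h1
    have h2 := Nat.find_min' hex ⟨t.erase a, h1, rfl⟩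
    rw [← htc] at h2
    have h3 := Finset.card_erase_lt_of_mem ha
    omega
  have hinf : (⨅ i ∈ t.erase a, V i) ⊓ V a ≤ U := by
    rw [inf_comm, ← Finset.iInf_insert, Finset.insert_erase ha]
    exact ht
  have h1 : (⨅ i ∈ t.erase a, V i) ⊔ V a = ⊤ := by
    rcases (hm a).2.2 ((⨅ i ∈ t.erase a, V i) ⊔ V a) inferInstance le_sup_right with h4 | h4
    · exfalso
      apply hPU
      have h5 : (⨅ i ∈ t.erase a, V i) ≤ V a := by
        rw [← h4]; exact le_sup_left
      rwa [inf_eq_left.2 h5] at hinf
    · exact h4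
  have h2 : U ⊔ V a = ⊤ := by
    rcases (hm a).2.2 (U ⊔ V a) inferInstance le_sup_right with h4 | h4
    · exact absurd (by rw [← h4]; exact le_sup_left) hna
    · exact h4
  exact hPU (le_of_inf_le _ U (V a) hinf h1 h2 (hp a))

end grp

section

variable {K : Type} [Field K] [CharZero K] {ι : Type}
  (E : ι → IntermediateField K (AlgebraicClosure K))

/-- The compositum of the fields with index in `X`. -/
noncomputable def Comp (X : Set ι) : IntermediateField K (AlgebraicClosure K) := sSup (E '' X)

theorem le_comp {X : Set ι} {i : ι} (hi : i ∈ X) : E i ≤ Comp E X := le_sSup ⟨i, hi, rfl⟩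

theorem comp_mono {X Y : Set ι} (h : X ⊆ Y) : Comp E X ≤ Comp E Y :=
  sSup_le_sSup (Set.image_mono h)

theorem comp_le {X : Set ι} {F : IntermediateField K (AlgebraicClosure K)}
    (h : ∀ i ∈ X, E i ≤ F) : Comp E X ≤ F := sSup_le (by
      rintro _ ⟨i, hi, rfl⟩
      exact h i hi)

theorem mem_fix_comp (X : Set ι) (σ : AlgebraicClosure K ≃ₐ[K] AlgebraicClosure K) :
    σ ∈ (Comp E X).fixingSubgroup ↔ ∀ i ∈ X, σ ∈ (E i).fixingSubgroup := by
  constructor
  · intro h i hi
    exact IntermediateField.fixingSubgroup_le (le_comp E hi) h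
  · intro h
    refine fixing_sSup _ σ ?_
    rintro _ ⟨i, hi, rfl⟩
    exact h i hi

variable [hG : ∀ i, IsGalois K (E i)] [hF : ∀ i, FiniteDimensional K (E i)]

instance comp_normal (X : Set ι) : Normal K (Comp E X) := by
  unfold Comp
  rw [sSup_eq_iSup']
  have : ∀ F : (E '' X : Set (IntermediateField K (AlgebraicClosure K))), Normal K F.1 := by
    rintro ⟨_, i, hi, rfl⟩
    have h1 : IsGalois K (E i) := hG i
    infer_instance
  infer_instance

variable (hm : ∀ i, MaxN (E i).fixingSubgroup) (hp : ∀ i, (E i).fixingSubgroup ⊔ commutator _ = ⊤)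
  (hinj : Function.Injective E)

include hm hp hinj

theorem finite_lift (τ : ∀ i, (E i ≃ₐ[K] E i)) (s : Finset ι) :
    ∃ σ : AlgebraicClosure K ≃ₐ[K] AlgebraicClosure K, ∀ i ∈ s, ∀ x : E i, σ x = τ i x := by
  classical
  induction s using Finset.induction_on with
  | empty => exact ⟨1, fun i hi => absurd hi (Finset.notMem_empty i)⟩
  | insert a s ha ih =>
    obtain ⟨σ₀, hσ₀⟩ := ih
    obtain ⟨hM, hP⟩ := perfect_iInf s (fun i => (E i).fixingSubgroup)
      (fun i _ => hm i) (fun i _ => hp i)
    obtain ⟨hn, hne, hmax⟩ := hm a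
    have htop : (⨅ i ∈ s, (E i).fixingSubgroup) ⊔ (E a).fixingSubgroup = ⊤ := by
      rcases hmax ((⨅ i ∈ s, (E i).fixingSubgroup) ⊔ (E a).fixingSubgroup) inferInstance
        le_sup_right with h | h
      · exfalso
        have h1 : (⨅ i ∈ s, (E i).fixingSubgroup) ≤ (E a).fixingSubgroup := by
          rw [← h]; exact le_sup_left
        obtain ⟨i, hi, hii⟩ := max_eq s (fun i => (E i).fixingSubgroup)
          (fun i _ => hm i) (fun i _ => hp i) (E a).fixingSubgroup (hm a) h1
        have h2 : E i = E a := by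
          rw [← InfiniteGalois.fixedField_fixingSubgroup (E i),
            ← InfiniteGalois.fixedField_fixingSubgroup (E a)]
          exact congrArg _ hii
        exact ha (by rw [← hinj h2]; exact hi)
      · exact h
    obtain ⟨ρ, hρ⟩ := AlgEquiv.restrictNormalHom_surjective (F := K) (K₁ := E a)
      (AlgebraicClosure K) (τ a)
    have h3 : σ₀⁻¹ * ρ ∈ (⨅ i ∈ s, (E i).fixingSubgroup) ⊔ (E a).fixingSubgroup := by
      rw [htop]; trivial
    obtain ⟨x, hx, y, hy, hxy⟩ := Subgroup.mem_sup_of_normal_right.1 h3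
    refine ⟨σ₀ * x, fun i hi z => ?_⟩
    rcases Finset.mem_insert.1 hi with rfl | hi
    · have h4 : σ₀ * x = ρ * y⁻¹ := by
        rw [eq_mul_inv_iff_mul_eq, mul_assoc, hxy, mul_inv_cancel_left]
      rw [h4, AlgEquiv.mul_apply]
      have h5 : y⁻¹ (z : AlgebraicClosure K) = z :=
        (IntermediateField.mem_fixingSubgroup_iff _ _).1 (inv_mem hy) z z.2
      rw [h5, ← hρ]
      exact (AlgEquiv.restrictNormal_commutes ρ (E i) z).symm
    · rw [AlgEquiv.mul_apply]
      have h5 : x (z : AlgebraicClosure K) = z := by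
        rw [Subgroup.mem_iInf] at hx
        have h6 := hx i
        rw [Subgroup.mem_iInf] at h6
        exact (IntermediateField.mem_fixingSubgroup_iff _ _).1 (h6 hi) z z.2
      rw [h5]
      exact hσ₀ i hi z

theorem full_lift (τ : ∀ i, (E i ≃ₐ[K] E i)) :
    ∃ σ : AlgebraicClosure K ≃ₐ[K] AlgebraicClosure K, ∀ (i : ι) (x : E i), σ x = τ i x := by
  classical
  let X : ι → Set (AlgebraicClosure K ≃ₐ[K] AlgebraicClosure K) := fun i =>
    {σ | ∀ x : E i, σ x = τ i x}
  have hXc : ∀ i, IsClosed (X i) := by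
    intro i
    obtain ⟨σ₀, hσ₀⟩ := finite_lift E hm hp hinj τ {i}
    have h1 : X i = (fun σ => σ₀⁻¹ * σ) ⁻¹' ((E i).fixingSubgroup :
        Set (AlgebraicClosure K ≃ₐ[K] AlgebraicClosure K)) := by
      ext σ
      change (∀ x : E i, σ x = τ i x) ↔ σ₀⁻¹ * σ ∈ (E i).fixingSubgroup
      rw [IntermediateField.mem_fixingSubgroup_iff]
      constructor
      · intro h x hx
        rw [AlgEquiv.mul_apply, h ⟨x, hx⟩, ← hσ₀ i (Finset.mem_singleton_self i) ⟨x, hx⟩]
        exact σ₀.symm_apply_apply x
      · intro h x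
        have h2 := h x x.2
        rw [AlgEquiv.mul_apply] at h2
        have h3 := congrArg σ₀ h2
        have h4 : σ₀ (σ₀⁻¹ (σ (x : AlgebraicClosure K))) = σ x := σ₀.apply_symm_apply _
        rw [h4] at h3
        rw [h3]
        exact hσ₀ i (Finset.mem_singleton_self i) x
    rw [h1]
    exact (InfiniteGalois.fixingSubgroup_isClosed (E i)).preimage (continuous_const.mul
      continuous_id)
  have hne := (isCompact_univ (X := AlgebraicClosure K ≃ₐ[K]
    AlgebraicClosure K)).inter_iInter_nonempty X hXc (fun s => by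
      obtain ⟨σ, hσ⟩ := finite_lift E hm hp hinj τ s
      exact ⟨σ, Set.mem_univ σ, Set.mem_iInter₂.2 fun i hi => hσ i hi⟩)
  obtain ⟨σ, hσ⟩ := hne
  exact ⟨σ, fun i => Set.mem_iInter.1 hσ.2 i⟩

theorem gal_prod (τ : ∀ i, (E i ≃ₐ[K] E i)) :
    ∃! σ : (Comp E Set.univ ≃ₐ[K] Comp E Set.univ),
      ∀ (i : ι) (x : E i),
        σ (IntermediateField.inclusion (le_comp E (Set.mem_univ i)) x) =
          IntermediateField.inclusion (le_comp E (Set.mem_univ i)) (τ i x) := by
  set N : IntermediateField K (AlgebraicClosure K) := Comp E Set.univ with hNdef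
  have hN : Normal K N := comp_normal E Set.univ
  have hres : ∀ (σ : AlgebraicClosure K ≃ₐ[K] AlgebraicClosure K) (x : N),
      ((AlgEquiv.restrictNormalHom N σ x : N) : AlgebraicClosure K) = σ x := fun σ x =>
    AlgEquiv.restrictNormal_commutes σ N x
  obtain ⟨σ, hσ⟩ := full_lift E hm hp hinj τ
  refine ⟨AlgEquiv.restrictNormalHom N σ, fun i x => ?_, fun σ' hσ' => ?_⟩
  · apply Subtype.ext
    rw [hres]
    exact hσ i x
  · obtain ⟨ρ, rfl⟩ := AlgEquiv.restrictNormalHom_surjective (F := K) (K₁ := N)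
      (AlgebraicClosure K) σ'
    have h1 : σ⁻¹ * ρ ∈ (Comp E Set.univ).fixingSubgroup := by
      rw [mem_fix_comp]
      intro i _
      rw [IntermediateField.mem_fixingSubgroup_iff]
      intro x hx
      have h2 := congrArg (fun y : N => (y : AlgebraicClosure K)) (hσ' i ⟨x, hx⟩)
      rw [hres] at h2
      change ρ x = ((τ i ⟨x, hx⟩ : E i) : AlgebraicClosure K) at h2
      rw [AlgEquiv.mul_apply, h2, ← hσ i ⟨x, hx⟩]
      exact σ.symm_apply_apply x
    rw [← hNdef, ← IntermediateField.restrictNormalHom_ker, MonoidHom.mem_ker, map_mul, map_inv,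
      inv_mul_eq_one] at h1
    exact h1.symm

theorem exists_mul (X Y : Set ι) (σ : AlgebraicClosure K ≃ₐ[K] AlgebraicClosure K)
    (hσ : σ ∈ (Comp E (X ∩ Y)).fixingSubgroup) :
    ∃ a ∈ (Comp E X).fixingSubgroup, ∃ b ∈ (Comp E Y).fixingSubgroup, σ = a * b := by
  classical
  obtain ⟨a, ha⟩ := full_lift E hm hp hinj
    (fun i => if i ∈ X then 1 else AlgEquiv.restrictNormalHom (E i) σ)
  have ha1 : ∀ i ∈ X, a ∈ (E i).fixingSubgroup := by
    intro i hi
    rw [IntermediateField.mem_fixingSubgroup_iff]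
    intro x hx
    have h1 := ha i ⟨x, hx⟩
    rw [if_pos hi] at h1
    exact h1
  refine ⟨a, (mem_fix_comp E X a).2 ha1, a⁻¹ * σ, (mem_fix_comp E Y _).2 fun i hi => ?_,
    (mul_inv_cancel_left a σ).symm⟩
  by_cases hX : i ∈ X
  · exact mul_mem (inv_mem (ha1 i hX)) ((mem_fix_comp E (X ∩ Y) σ).1 hσ i ⟨hX, hi⟩)
  · rw [IntermediateField.mem_fixingSubgroup_iff]
    intro x hx
    have h1 := ha i ⟨x, hx⟩
    rw [if_neg hX] at h1
    have h2 : ((AlgEquiv.restrictNormalHom (E i) σ ⟨x, hx⟩ : E i) : AlgebraicClosure K) = σ x :=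
      AlgEquiv.restrictNormal_commutes σ (E i) ⟨x, hx⟩
    rw [h2] at h1
    rw [AlgEquiv.mul_apply, ← h1]
    exact a.symm_apply_apply x

theorem comp_inf (X Y : Set ι) : Comp E X ⊓ Comp E Y = Comp E (X ∩ Y) := by
  apply le_antisymm
  · rw [← InfiniteGalois.fixedField_fixingSubgroup (Comp E (X ∩ Y))]
    intro x hx
    rw [IntermediateField.mem_fixedField_iff]
    intro σ hσ
    obtain ⟨a, ha, b, hb, rfl⟩ := exists_mul E hm hp hinj X Y σ hσ
    rw [AlgEquiv.mul_apply, (IntermediateField.mem_fixingSubgroup_iff _ _).1 hb x hx.2,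
      (IntermediateField.mem_fixingSubgroup_iff _ _).1 ha x hx.1]
  · exact le_inf (comp_mono E Set.inter_subset_left) (comp_mono E Set.inter_subset_right)

theorem le_comp_iff (X : Set ι) (i : ι) : E i ≤ Comp E X ↔ i ∈ X := by
  constructor
  · intro h
    by_contra hi
    have h1 := comp_inf E hm hp hinj {i} X
    have h2 : ({i} : Set ι) ∩ X = ∅ := by
      ext j
      simp only [Set.mem_inter_iff, Set.mem_singleton_iff, Set.mem_empty_iff_false, iff_false,
        not_and]
      rintro rfl
      exact hi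
    rw [h2] at h1
    have h3 : E i ≤ Comp E ∅ := by
      rw [← h1]
      exact le_inf (le_comp E rfl) h
    apply (hm i).2.1
    rw [eq_top_iff]
    intro σ _
    refine IntermediateField.fixingSubgroup_le h3 ?_
    rw [mem_fix_comp]
    intro j hj
    exact absurd hj (Set.notMem_empty j)
  · exact fun h => le_comp E h

theorem rigid (F : IntermediateField K (AlgebraicClosure K)) (hF : F ≤ Comp E Set.univ)
    (hn : Normal K F) : F = Comp E {i | E i ≤ F} := by
  classical
  apply le_antisymm
  · intro x hx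
    let L : IntermediateField K (AlgebraicClosure K) :=
      IntermediateField.normalClosure K (IntermediateField.adjoin K {x}) (AlgebraicClosure K)
    have hxi : IsIntegral K x := ((AlgebraicClosure.isAlgebraic K).isAlgebraic x).isIntegral
    have hfa : FiniteDimensional K (IntermediateField.adjoin K {x}) :=
      IntermediateField.adjoin.finiteDimensional hxi
    have hLf : FiniteDimensional K L := normalClosure.is_finiteDimensional K _ _
    have hLn : Normal K L := normalClosure.normal K _ _
    have hxL : x ∈ L := (IntermediateField.adjoin K {x}).le_normalClosure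
      (IntermediateField.subset_adjoin K {x} rfl)
    have hLF : L ≤ F := by
      have h1 : IntermediateField.adjoin K {x} ≤ F :=
        IntermediateField.adjoin_le_iff.2 (by simpa using hx)
      exact IntermediateField.normalClosure_le_iff_of_normal.2 h1
    have hUn : L.fixingSubgroup.Normal := by
      rw [← IntermediateField.restrictNormalHom_ker]
      infer_instance
    obtain ⟨s, hs⟩ : ∃ s : Finset ι, ⨅ i ∈ s, (E i).fixingSubgroup ≤ L.fixingSubgroup := by
      obtain ⟨s, hs⟩ := exists_finset (E '' Set.univ) L.fixingSubgroup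
        (IntermediateField.fixingSubgroup_isOpen L)
        (IntermediateField.fixingSubgroup_le (hLF.trans hF))
      choose f hf using fun F : (E '' Set.univ : Set (IntermediateField K (AlgebraicClosure K))) =>
        F.2
      refine ⟨s.image f, le_trans ?_ hs⟩
      refine le_iInf₂ fun F hFs => ?_
      refine (iInf₂_le (f F) (Finset.mem_image_of_mem f hFs)).trans ?_
      rw [(hf F).2]
    obtain ⟨t, ht, htU⟩ := exists_subset (fun i => (E i).fixingSubgroup) hm hp L.fixingSubgroup hUn
      s hs
    have h1 : (Comp E {i | E i ≤ F}).fixingSubgroup ≤ L.fixingSubgroup := by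
      refine le_trans ?_ ht
      refine le_iInf₂ fun i hi => ?_
      refine IntermediateField.fixingSubgroup_le (le_comp E ?_)
      change E i ≤ F
      refine le_trans ?_ hLF
      rw [← InfiniteGalois.fixedField_fixingSubgroup (E i),
        ← InfiniteGalois.fixedField_fixingSubgroup L]
      exact IntermediateField.fixedField_le (htU i hi)
    rw [← InfiniteGalois.fixedField_fixingSubgroup (Comp E {i | E i ≤ F}),
      IntermediateField.mem_fixedField_iff]
    intro σ hσ
    exact (IntermediateField.mem_fixingSubgroup_iff _ _).1 (h1 hσ) x hxL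
  · exact comp_le E fun i hi => hi

omit hm hp hinj in
theorem index_big (n : ℕ) (i : ι) (h5 : 5 ≤ n)
    (e : (E i ≃ₐ[K] E i) ≃* alternatingGroup (Fin n)) :
    (n - 1).factorial < (E i).fixingSubgroup.index := by
  obtain ⟨h3, h4, h6⟩ := alt_simple n h5 e
  rw [← IntermediateField.restrictNormalHom_ker, Subgroup.index_ker, MonoidHom.range_eq_top.2
      (AlgEquiv.restrictNormalHom_surjective _), Subgroup.card_top, h6]
  have h7 : n.factorial = n * (n - 1).factorial := (Nat.mul_factorial_pred (by omega)).symm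
  have h8 : 0 < (n - 1).factorial := Nat.factorial_pos _
  have h9 : 5 * (n - 1).factorial ≤ n.factorial := by rw [h7]; exact Nat.mul_le_mul_right _ h5
  omega

theorem small_degree (n : ι → ℕ) (h5 : ∀ i, 5 ≤ n i)
    (hA : ∀ i, Nonempty ((E i ≃ₐ[K] E i) ≃* alternatingGroup (Fin (n i))))
    (F : IntermediateField K (AlgebraicClosure K)) [FiniteDimensional K F]
    (hF : F ≤ Comp E Set.univ) : F ≤ Comp E {i | n i ≤ Module.finrank K F} := by
  classical
  set H := F.fixingSubgroup with hH
  have hHo : IsOpen (H : Set (AlgebraicClosure K ≃ₐ[K] AlgebraicClosure K)) :=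
    IntermediateField.fixingSubgroup_isOpen F
  have hHi : H.index = Module.finrank K F :=
    (IntermediateField.finrank_eq_fixingSubgroup_index (AlgebraicClosure K) F).symm
  have hpos : 0 < Module.finrank K F := Module.finrank_pos
  have hfi : H.FiniteIndex := ⟨by rw [hHi]; omega⟩
  have hcore : H.normalCore.index ∣ H.index.factorial := by
    rw [Subgroup.normalCore_eq_ker, Subgroup.index_ker, Subgroup.index_eq_card, ← Nat.card_perm]
    exact Subgroup.card_subgroup_dvd_card _
  have hcore0 : H.normalCore.index ≠ 0 := fun h => by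
    rw [h, zero_dvd_iff] at hcore
    exact Nat.factorial_ne_zero _ hcore
  let F' : IntermediateField K (AlgebraicClosure K) :=
    IntermediateField.normalClosure K F (AlgebraicClosure K)
  have hFF' : F ≤ F' := F.le_normalClosure
  have hF'n : Normal K F' := normalClosure.normal K _ _
  have hF' : F' ≤ Comp E Set.univ := IntermediateField.normalClosure_le_iff_of_normal.2 hF
  have hr := rigid E hm hp hinj F' hF' hF'n
  refine hFF'.trans ?_
  rw [hr]
  refine comp_mono E fun i hi => ?_
  change E i ≤ F' at hi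
  change n i ≤ Module.finrank K F
  by_contra hlt
  push Not at hlt
  let C : ClosedSubgroup (AlgebraicClosure K ≃ₐ[K] AlgebraicClosure K) :=
    ⟨H.normalCore, H.normalCore_isClosed (Subgroup.isClosed_of_isOpen _ hHo)⟩
  have hCfix : (IntermediateField.fixedField H.normalCore).fixingSubgroup = H.normalCore :=
    InfiniteGalois.fixingSubgroup_fixedField C
  have hCn : Normal K (IntermediateField.fixedField H.normalCore :
      IntermediateField K (AlgebraicClosure K)) := by
    have : IsGalois K (IntermediateField.fixedField H.normalCore :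
      IntermediateField K (AlgebraicClosure K)) := by
      rw [← InfiniteGalois.normal_iff_isGalois, hCfix]
      infer_instance
    infer_instance
  have h1 : F ≤ IntermediateField.fixedField H.normalCore := by
    rw [← InfiniteGalois.fixedField_fixingSubgroup F]
    exact IntermediateField.fixedField_le H.normalCore_le
  have h2 : F' ≤ IntermediateField.fixedField H.normalCore :=
    IntermediateField.normalClosure_le_iff_of_normal.2 h1
  have h3 : H.normalCore ≤ (E i).fixingSubgroup := by
    rw [← hCfix]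
    exact IntermediateField.fixingSubgroup_le (hi.trans h2)
  have h4 : (E i).fixingSubgroup.index ∣ H.normalCore.index := Subgroup.index_dvd_of_le h3
  have h6 : (E i).fixingSubgroup.index ≤ H.index.factorial :=
    Nat.le_of_dvd (Nat.factorial_pos _) (h4.trans hcore)
  have h7 : H.index.factorial ≤ (n i - 1).factorial := Nat.factorial_le (by omega)
  have h8 := index_big E (n i) i (h5 i) (hA i).some
  omega

end

end Pool.Agent.Helper72.FB
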