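import Mathlib
import Pool.Agent.Helper72.FB.Abs

/-!
# A sparse sequence of alternating extensions which solves all embedding problems
-/

set_option autoImplicit false
set_option linter.unusedSectionVars false
set_option linter.unusedVariables false

namespace Pool.Agent.Helper72.FB

open Pool.Agent.H391R2 Pool.Agent.H391R2.T4 Pool.Agent.Y793
open Filter Topology

/-- Isomorphic embedding problems have isomorphic alternating fibre powers. -/
theorem alt_transport {Γ E E' : Type} [Group Γ] [Group E] [Group E'] (β : E →* Γ) (β' : E' →* Γ)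
    (e : E ≃* E') (h : ∀ x, β' (e x) = β x) (n : ℕ) :
    ∃ f : AltEP β n →* AltEP β' n, Function.Injective f ∧ Function.Surjective f ∧
      ∀ z, (f z).1.2 = z.1.2 ∧ (f z).1.1.right = z.1.1.right := by
  have mem : ∀ z : AltEP β n, ((⟨fun i => e (z.1.1.left i), z.1.1.right⟩, z.1.2) :
      Wr E' n × Γ) ∈ AltEP β' n := by
    intro z
    refine ⟨fun i => ?_, z.2.2⟩
    change β' (e (z.1.1.left i)) = z.1.2
    rw [h]
    exact z.2.1 i
  refine ⟨{ toFun := fun z => ⟨_, mem z⟩, map_one' := ?_, map_mul' := ?_ }, ?_, ?_, fun z => ⟨rfl, rfl⟩⟩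
  · apply Subtype.ext
    refine Prod.ext ?_ rfl
    refine SemidirectProduct.ext ?_ rfl
    funext i
    exact map_one e
  · intro z z'
    apply Subtype.ext
    refine Prod.ext ?_ rfl
    refine SemidirectProduct.ext ?_ rfl
    funext i
    change e ((z.1.1 * z'.1.1).left i) =
      ((⟨fun i => e (z.1.1.left i), z.1.1.right⟩ : Wr E' n) *
        (⟨fun i => e (z'.1.1.left i), z'.1.1.right⟩ : Wr E' n)).left i
    rw [wr_mul_left, wr_mul_left, map_mul]
  · intro z z' hzz
    have h1 : (((⟨fun i => e (z.1.1.left i), z.1.1.right⟩ : Wr E' n), z.1.2) : Wr E' n × Γ) =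
      ((⟨fun i => e (z'.1.1.left i), z'.1.1.right⟩ : Wr E' n), z'.1.2) := congrArg Subtype.val hzz
    have h2 : (⟨fun i => e (z.1.1.left i), z.1.1.right⟩ : Wr E' n) =
      ⟨fun i => e (z'.1.1.left i), z'.1.1.right⟩ := congrArg Prod.fst h1
    have h3 := congrArg Prod.snd h1
    change z.1.2 = z'.1.2 at h3
    have h4 := congrArg SemidirectProduct.right h2
    change z.1.1.right = z'.1.1.right at h4
    have h5 : (fun i => e (z.1.1.left i)) = fun i => e (z'.1.1.left i) :=
      congrArg SemidirectProduct.left h2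
    apply Subtype.ext
    refine Prod.ext ?_ h3
    refine SemidirectProduct.ext ?_ h4
    funext i
    exact e.injective (congrFun h5 i)
  · intro y
    refine ⟨⟨(⟨fun i => e.symm (y.1.1.left i), y.1.1.right⟩, y.1.2), ⟨fun i => ?_, y.2.2⟩⟩, ?_⟩
    · change β (e.symm (y.1.1.left i)) = y.1.2
      rw [← h, MulEquiv.apply_symm_apply]
      exact y.2.1 i
    · apply Subtype.ext
      refine Prod.ext ?_ rfl
      refine SemidirectProduct.ext ?_ rfl
      funext i
      exact e.apply_symm_apply _

/-- A finite type without operations. -/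
def Fn (m : ℕ) : Type := Fin m

instance (m : ℕ) : Finite (Fn m) := inferInstanceAs (Finite (Fin m))

/-- An embedding problem over `K`. -/
structure Req (K : Type) [Field K] where
  L : IntermediateField K (AlgebraicClosure K)
  fd : FiniteDimensional K L
  gal : IsGalois K L
  m : ℕ
  grp : Group (Fn m)
  β : Fn m →* (L ≃ₐ[K] L)
  surj : Function.Surjective β

section

variable {K : Type} [Field K]

theorem countable_closure [Countable K] : Countable (AlgebraicClosure K) := by
  rw [← Cardinal.mk_le_aleph0_iff]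
  refine (Algebra.IsAlgebraic.cardinalMk_le_max K (AlgebraicClosure K)).trans ?_
  exact max_le (Cardinal.mk_le_aleph0_iff.2 inferInstance) le_rfl

theorem countable_fd [Countable K] :
    Countable {L : IntermediateField K (AlgebraicClosure K) // FiniteDimensional K L} := by
  classical
  have h0 : Countable (AlgebraicClosure K) := countable_closure
  let f : Finset (AlgebraicClosure K) →
      {L : IntermediateField K (AlgebraicClosure K) // FiniteDimensional K L} := fun s =>
    ⟨IntermediateField.adjoin K (s : Set (AlgebraicClosure K)),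
      IntermediateField.finiteDimensional_adjoin fun x _ =>
        (AlgebraicClosure.isAlgebraic K).isAlgebraic x |>.isIntegral⟩
  have hf : Function.Surjective f := by
    rintro ⟨L, hL⟩
    refine ⟨Finset.univ.image fun i => (Module.finBasis K L i : AlgebraicClosure K), ?_⟩
    apply Subtype.ext
    change IntermediateField.adjoin K _ = L
    apply le_antisymm
    · rw [IntermediateField.adjoin_le_iff]
      intro x hx
      obtain ⟨i, -, rfl⟩ := Finset.mem_image.1 (Finset.mem_coe.1 hx)
      exact (Module.finBasis K L i).2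
    · intro x hx
      have h1 := (Module.finBasis K L).sum_repr ⟨x, hx⟩
      have h2 := congrArg (fun y : L => (y : AlgebraicClosure K)) h1
      change ((∑ i, (Module.finBasis K L).repr ⟨x, hx⟩ i • Module.finBasis K L i : L) :
        AlgebraicClosure K) = x at h2
      rw [← h2, AddSubmonoidClass.coe_finsetSum]
      refine sum_mem fun i _ => ?_
      change (Module.finBasis K L).repr ⟨x, hx⟩ i • (Module.finBasis K L i : AlgebraicClosure K) ∈ _
      refine IntermediateField.smul_mem _ ?_
      refine IntermediateField.subset_adjoin _ _ ?_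
      simp
  exact hf.countable

theorem countable_req [Countable K] : Countable (Req K) := by
  have h0 : Countable {L : IntermediateField K (AlgebraicClosure K) // FiniteDimensional K L} :=
    countable_fd
  have h1 : ∀ L : {L : IntermediateField K (AlgebraicClosure K) // FiniteDimensional K L},
      Finite (L.1 ≃ₐ[K] L.1) := fun L => by
    have := L.2
    infer_instance
  let X := Σ L : {L : IntermediateField K (AlgebraicClosure K) // FiniteDimensional K L},
    Σ m : ℕ, (Fn m → Fn m → Fn m) × (Fn m → (L.1 ≃ₐ[K] L.1))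
  have hX : Countable X := inferInstance
  let f : Req K → X := fun r => ⟨⟨r.L, r.fd⟩, r.m, (r.grp.mul, r.β)⟩
  have hf : Function.Injective f := by
    rintro ⟨L, fd, gal, m, grp, β, surj⟩ ⟨L', fd', gal', m', grp', β', surj'⟩ h
    have h0 : (⟨⟨L, fd⟩, m, (grp.mul, β)⟩ : X) = ⟨⟨L', fd'⟩, m', (grp'.mul, β')⟩ := h
    clear h
    rw [Sigma.mk.injEq] at h0
    obtain ⟨h1, h2⟩ := h0
    obtain rfl : L = L' := congrArg Subtype.val h1
    have h2 := eq_of_heq h2
    rw [Sigma.mk.injEq] at h2
    obtain ⟨rfl, h2⟩ := h2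
    have h2 := eq_of_heq h2
    rw [Prod.mk.injEq] at h2
    obtain ⟨h2, h3⟩ := h2
    have h4 : grp = grp' := Group.ext (funext fun a => funext fun b => congrFun (congrFun h2 a) b)
    subst h4
    have h5 : β = β' := DFunLike.coe_injective h3
    subst h5
    rfl
  exact hf.countable

/-- Some homomorphism onto the alternating fibre power of `α` of degree `n` solves the embedding
problem, and its alternating quotient is trivial on the group of `E`. -/
def Solves (L : IntermediateField K (AlgebraicClosure K)) [IsGalois K L] {B : Type} [Group B]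
    (α : B →* (L ≃ₐ[K] L)) (n : ℕ) (E : IntermediateField K (AlgebraicClosure K)) : Prop :=
  ∃ w : (AlgebraicClosure K ≃ₐ[K] AlgebraicClosure K) →* AltEP α n,
    Function.Surjective w ∧
    IsOpen (w.ker : Set (AlgebraicClosure K ≃ₐ[K] AlgebraicClosure K)) ∧
    (∀ σ, (w σ).1.2 = AlgEquiv.restrictNormalHom L σ) ∧
    ∀ σ ∈ E.fixingSubgroup, (w σ).1.1.right = 1

theorem Solves.transport {L : IntermediateField K (AlgebraicClosure K)} [IsGalois K L]
    {B B' : Type} [Group B] [Group B'] {α : B →* (L ≃ₐ[K] L)} {α' : B' →* (L ≃ₐ[K] L)}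
    (e : B ≃* B') (he : ∀ x, α' (e x) = α x) {n : ℕ}
    {E : IntermediateField K (AlgebraicClosure K)} (h : Solves L α n E) : Solves L α' n E := by
  obtain ⟨w, hw, hwo, hwc, hwt⟩ := h
  obtain ⟨f, hfi, hfs, hf⟩ := alt_transport α α' e he n
  refine ⟨f.comp w, hfs.comp hw, ?_, fun σ => ?_, fun σ hσ => ?_⟩
  · have h1 : (f.comp w).ker = w.ker := by
      ext σ
      rw [MonoidHom.mem_ker, MonoidHom.mem_ker, MonoidHom.comp_apply]
      constructor
      · intro h2
        apply hfi
        rw [h2, map_one]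
      · intro h2
        rw [h2, map_one]
    rw [h1]
    exact hwo
  · rw [MonoidHom.comp_apply, (hf (w σ)).1]
    exact hwc σ
  · rw [MonoidHom.comp_apply, (hf (w σ)).2]
    exact hwt σ hσ

/-- The requirement `r` is solved in degree `n` with the field `E`. -/
def Req.Sol (r : Req K) (n : ℕ) (E : IntermediateField K (AlgebraicClosure K)) : Prop :=
  letI := r.grp
  haveI := r.gal
  Solves r.L r.β n E

/-- The requirement which is given by an embedding problem. -/
theorem exists_req (L : IntermediateField K (AlgebraicClosure K)) [hL : FiniteDimensional K L]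
    [hG : IsGalois K L] (B : Type) [Group B] [Finite B] (α : B →* (L ≃ₐ[K] L))
    (hα : Function.Surjective α) :
    ∃ r : Req K, ∀ (n : ℕ) (E : IntermediateField K (AlgebraicClosure K)),
      r.Sol n E → Solves L α n E := by
  let e₀ : B ≃ Fn (Nat.card B) := Finite.equivFin B
  letI g : Group (Fn (Nat.card B)) := e₀.symm.group
  let e : Fn (Nat.card B) ≃* B := e₀.symm.mulEquiv
  refine ⟨⟨L, hL, hG, Nat.card B, g, α.comp e.toMonoidHom, hα.comp e.surjective⟩,
    fun n E h => ?_⟩
  have h1 : Solves L (α.comp e.toMonoidHom) n E := h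
  exact h1.transport e fun x => rfl

end

section

variable {K : Type} [Field K] [CharZero K]

/-- The degrees are even so large that there is a new extension with an alternating group. -/
theorem step (hK : HilbField K) (r : Req K) (c : ℕ) :
    ∃ (n : ℕ) (E : IntermediateField K (AlgebraicClosure K)), c ≤ n ∧ 5 ≤ n ∧
      FiniteDimensional K E ∧ IsGalois K E ∧
      Nonempty ((E ≃ₐ[K] E) ≃* alternatingGroup (Fin n)) ∧ r.Sol n E := by
  letI := r.grp
  haveI := r.gal
  haveI := r.fd
  obtain ⟨n, hc, h5, -, w, hw, hwo, hwL⟩ :=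
    Pool.Agent.Helper72.FA.exists_hom hK r.L (Fn r.m) r.β r.surj c 1 one_pos
  let π : (AlgebraicClosure K ≃ₐ[K] AlgebraicClosure K) →* Equiv.Perm (Fin n) :=
    (SemidirectProduct.rightHom.comp ((MonoidHom.fst (Wr (Fn r.m) n) (r.L ≃ₐ[K] r.L)).comp
      (AltEP r.β n).subtype)).comp w
  have hπ : ∀ σ, π σ = (w σ).1.1.right := fun σ => rfl
  have hπsign : ∀ σ, Equiv.Perm.sign (π σ) = 1 := fun σ => (w σ).2.2
  have hπrange : π.range = alternatingGroup (Fin n) := by
    ext p
    rw [Equiv.Perm.mem_alternatingGroup]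
    constructor
    · rintro ⟨σ, rfl⟩
      exact hπsign σ
    · intro hp
      obtain ⟨z, hz, -⟩ := Pool.Agent.Helper72.FA.even_mem_range r.β n p hp
      obtain ⟨σ, hσ⟩ := hw z
      exact ⟨σ, by rw [hπ, hσ, hz]⟩
  have hπo : IsOpen (π.ker : Set (AlgebraicClosure K ≃ₐ[K] AlgebraicClosure K)) := by
    refine Subgroup.isOpen_mono (H₁ := w.ker) ?_ hwo
    intro σ hσ
    rw [MonoidHom.mem_ker, hπ, MonoidHom.mem_ker.1 hσ]
    rfl
  let C : ClosedSubgroup (AlgebraicClosure K ≃ₐ[K] AlgebraicClosure K) :=
    ⟨π.ker, Subgroup.isClosed_of_isOpen _ hπo⟩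
  let E : IntermediateField K (AlgebraicClosure K) := IntermediateField.fixedField π.ker
  have hEfix : E.fixingSubgroup = π.ker := InfiniteGalois.fixingSubgroup_fixedField C
  have hCn : (C : Subgroup (AlgebraicClosure K ≃ₐ[K] AlgebraicClosure K)).Normal :=
    inferInstanceAs (π.ker.Normal)
  have hE : IsGalois K E := by
    rw [← InfiniteGalois.normal_iff_isGalois, hEfix]
    infer_instance
  have hEf : FiniteDimensional K E := by
    rw [← InfiniteGalois.isOpen_iff_finite, hEfix]
    exact hπo
  let e : (E ≃ₐ[K] E) ≃* alternatingGroup (Fin n) :=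
    ((InfiniteGalois.normalAutEquivQuotient C).symm.trans
      (QuotientGroup.quotientKerEquivRange π)).trans (MulEquiv.subgroupCongr hπrange)
  refine ⟨n, E, hc, h5, hEf, hE, ⟨e⟩, w, hw, hwo, hwL, fun σ hσ => ?_⟩
  rw [hEfix] at hσ
  exact hσ

theorem exists_sequence (hK : HilbField K) [Countable K] (g : ℕ → ℕ) :
    ∃ (n : ℕ → ℕ) (E : ℕ → IntermediateField K (AlgebraicClosure K)) (ν : ℕ → ℕ),
      (∀ i, 5 ≤ n i) ∧ (∀ i, g i ≤ n i) ∧ (∀ i, n i < n (i + 1)) ∧ (∀ i, g (n i) ≤ n (i + 1)) ∧
      (∀ i, FiniteDimensional K (E i)) ∧ (∀ i, IsGalois K (E i)) ∧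
      (∀ i, Nonempty ((E i ≃ₐ[K] E i) ≃* alternatingGroup (Fin (n i)))) ∧
      ∀ (k c : ℕ) (L : IntermediateField K (AlgebraicClosure K)) [FiniteDimensional K L]
        [IsGalois K L] (B : Type) [Group B] [Finite B] (α : B →* (L ≃ₐ[K] L)),
        Function.Surjective α → ∃ i, ν i = k ∧ c ≤ i ∧ Solves L α (n i) (E i) := by
  classical
  haveI : Countable (Req K) := countable_req
  haveI : Nonempty (Req K) := by
    haveI : Finite ((⊥ : IntermediateField K (AlgebraicClosure K)) ≃ₐ[K]
      (⊥ : IntermediateField K (AlgebraicClosure K))) := inferInstance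
    obtain ⟨r, -⟩ := exists_req (K := K) ⊥ ((⊥ : IntermediateField K (AlgebraicClosure K)) ≃ₐ[K]
      (⊥ : IntermediateField K (AlgebraicClosure K))) (MonoidHom.id _) (fun x => ⟨x, rfl⟩)
    exact ⟨r⟩
  obtain ⟨q, hq⟩ := exists_surjective_nat (ℕ × ℕ × Req K)
  choose nn EE hc h5 hfd hgal hA hsol using fun (r : Req K) (c : ℕ) => step hK r c
  let bd : ℕ → ℕ := fun i => Nat.rec ((q 0).2.1 + g 0)
    (fun i b => (q (i + 1)).2.1 + g (i + 1) + g (nn (q i).2.2 b) + nn (q i).2.2 b + 1) i
  have hbd0 : bd 0 = (q 0).2.1 + g 0 := rfl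
  have hbd : ∀ i, bd (i + 1) = (q (i + 1)).2.1 + g (i + 1) + g (nn (q i).2.2 (bd i)) +
    nn (q i).2.2 (bd i) + 1 := fun i => rfl
  let n : ℕ → ℕ := fun i => nn (q i).2.2 (bd i)
  have hn : ∀ i, bd i ≤ n i := fun i => hc _ _
  have hq1 : ∀ i, (q i).2.1 ≤ bd i := by
    intro i
    cases i with
    | zero => rw [hbd0]; omega
    | succ i => rw [hbd]; omega
  have hg1 : ∀ i, g i ≤ bd i := by
    intro i
    cases i with
    | zero => rw [hbd0]; omega
    | succ i => rw [hbd]; omega
  have hlt : ∀ i, n i < n (i + 1) := by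
    intro i
    have h1 := hn (i + 1)
    rw [hbd] at h1
    change nn (q i).2.2 (bd i) < n (i + 1)
    omega
  have hg2 : ∀ i, g (n i) ≤ n (i + 1) := by
    intro i
    have h1 := hn (i + 1)
    rw [hbd] at h1
    change g (nn (q i).2.2 (bd i)) ≤ n (i + 1)
    omega
  refine ⟨n, fun i => EE (q i).2.2 (bd i), fun i => (q i).1, fun i => h5 _ _,
    fun i => (hg1 i).trans (hn i), hlt, hg2, fun i => hfd _ _, fun i => hgal _ _,
    fun i => hA _ _, ?_⟩
  intro k c L _ _ B _ _ α hα
  obtain ⟨r, hr⟩ := exists_req L B α hα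
  obtain ⟨i, hi⟩ := hq (k, n c, r)
  have h1 : (q i).1 = k := by rw [hi]
  have h2 : (q i).2.1 = n c := by rw [hi]
  have h3 : (q i).2.2 = r := by rw [hi]
  refine ⟨i, h1, ?_, hr _ _ ?_⟩
  · by_contra hcon
    push Not at hcon
    have h4 := (strictMono_nat_of_lt_succ hlt) hcon
    have h5 := hq1 i
    have h6 := hn i
    omega
  · have h4 := hsol (q i).2.2 (bd i)
    change r.Sol (nn (q i).2.2 (bd i)) (EE (q i).2.2 (bd i))
    rw [h3] at h4 ⊢
    exact h4

end

end Pool.Agent.Helper72.FB
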